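import Pool.Agent.HMT.Stmts

/-!
# Squad HMT, row EDG: every tree edge counts once
-/

set_option autoImplicit false

namespace Pool.Agent.HMT.H76

open Pool.Agent.HMT

variable (F : Fr) {ε : ℤˣ}

theorem rel_iff (Z : Finset F.R) (a b : F.Vert ε) : F.rel ε Z a b ↔ F.rel ε ∅ a b ∨
    ∃ r ∈ Z, a = Sum.inr (F.par r) ∧ b = Sum.inr (Sum.inr r) := by
  rcases a with ⟨g, x⟩ | a <;> rcases b with ⟨h, y⟩ | (j | r) <;> simp [Fr.rel]
  exact and_comm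

theorem rel_none {p : F.J ⊕ F.R} {b : F.Vert ε} : ¬ F.rel ε ∅ (Sum.inr p) b := by
  rcases b with ⟨h, y⟩ | (j | r) <;> simp [Fr.rel]

theorem adj_iff (Z : Finset F.R) (a b : F.Vert ε) : (F.Gr ε Z).Adj a b ↔
    (F.Gr ε ∅).Adj a b ∨ ∃ r ∈ Z, (a = Sum.inr (F.par r) ∧ b = Sum.inr (Sum.inr r)) ∨
      (b = Sum.inr (F.par r) ∧ a = Sum.inr (Sum.inr r)) := by
  unfold Fr.Gr
  rw [SimpleGraph.fromRel_adj, SimpleGraph.fromRel_adj, rel_iff F Z a b, rel_iff F Z b a]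
  constructor
  · rintro ⟨h, (h1 | ⟨r, hr, h1⟩) | (h1 | ⟨r, hr, h1⟩)⟩
    · exact Or.inl ⟨h, Or.inl h1⟩
    · exact Or.inr ⟨r, hr, Or.inl h1⟩
    · exact Or.inl ⟨h, Or.inr h1⟩
    · exact Or.inr ⟨r, hr, Or.inr h1⟩
  · rintro (⟨h, h1 | h1⟩ | ⟨r, hr, h1 | h1⟩)
    · exact ⟨h, Or.inl (Or.inl h1)⟩
    · exact ⟨h, Or.inr (Or.inl h1)⟩
    · refine ⟨?_, Or.inl (Or.inr ⟨r, hr, h1⟩)⟩
      rw [h1.1, h1.2]
      intro h2
      exact lt_irrefl _ (F.hdep r r (Sum.inr_injective h2))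
    · refine ⟨?_, Or.inr (Or.inr ⟨r, hr, h1⟩)⟩
      rw [h1.1, h1.2]
      intro h2
      exact lt_irrefl _ (F.hdep r r (Sum.inr_injective h2).symm)

theorem not_adj (r : F.R) :
    ¬ (F.Gr ε ∅).Adj (Sum.inr (F.par r) : F.Vert ε) (Sum.inr (Sum.inr r)) := by
  unfold Fr.Gr
  rw [SimpleGraph.fromRel_adj]
  rintro ⟨-, h | h⟩
  · exact rel_none F h
  · exact rel_none F h

/-- EDG -/
theorem edg : EdgStmt := by
  intro F ε Z B
  obtain ⟨H, hH⟩ : ∃ H : Finset F.R → SimpleGraph B, H = fun Z => (F.Gr ε Z).induce B := ⟨_, rfl⟩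
  have hadj : ∀ (Z : Finset F.R) (a b : B), (H Z).Adj a b ↔ (F.Gr ε Z).Adj a b := by
    intro Z a b
    rw [hH]
    exact SimpleGraph.comap_adj
  change Nat.card ((fun Z => (F.Gr ε Z).induce B) Z).edgeSet =
    Nat.card ((fun Z => (F.Gr ε Z).induce B) ∅).edgeSet + _
  rw [← hH]
  have hsub : ∀ e, e ∈ (H ∅).edgeSet → e ∈ (H Z).edgeSet := by
    intro e
    induction e using Sym2.ind with
    | _ a b =>
      intro h
      rw [SimpleGraph.mem_edgeSet, hadj] at h ⊢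
      exact (adj_iff F Z a.1 b.1).2 (Or.inl h)
  have hr : ∀ r : {r : F.R // r ∈ Z ∧ (Sum.inr (F.par r) : F.Vert ε) ∈ B ∧
      (Sum.inr (Sum.inr r) : F.Vert ε) ∈ B},
      s((⟨Sum.inr (F.par r.1), r.2.2.1⟩ : B), (⟨Sum.inr (Sum.inr r.1), r.2.2.2⟩ : B)) ∈
        (H Z).edgeSet := by
    intro r
    rw [SimpleGraph.mem_edgeSet, hadj]
    exact (adj_iff F Z _ _).2 (Or.inr ⟨r.1, r.2.1, Or.inl ⟨rfl, rfl⟩⟩)
  rw [← Nat.card_sum]
  refine (Nat.card_congr (Equiv.ofBijective (Sum.elim (fun e : (H ∅).edgeSet =>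
    (⟨e.1, hsub e.1 e.2⟩ : (H Z).edgeSet)) fun r => ⟨_, hr r⟩) ⟨?_, ?_⟩)).symm
  · rintro (⟨e, he⟩ | r) (⟨e', he'⟩ | r') h
    · simp only [Sum.elim_inl, Subtype.mk.injEq] at h
      rw [Sum.inl.injEq, Subtype.mk.injEq, h]
    · exfalso
      simp only [Sum.elim_inl, Sum.elim_inr, Subtype.mk.injEq] at h
      rw [h, SimpleGraph.mem_edgeSet, hadj] at he
      exact not_adj F _ he
    · exfalso
      simp only [Sum.elim_inl, Sum.elim_inr, Subtype.mk.injEq] at h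
      rw [← h, SimpleGraph.mem_edgeSet, hadj] at he'
      exact not_adj F _ he'
    · simp only [Sum.elim_inr, Subtype.mk.injEq, Sym2.eq_iff, Sum.inr.injEq] at h
      rcases h with h | h
      · rw [Sum.inr.injEq]
        exact Subtype.ext h.2
      · exfalso
        have h1 := F.hdep r.1 r'.1 h.1
        have h2 := F.hdep r'.1 r.1 h.2.symm
        omega
  · rintro ⟨e, he⟩
    induction e using Sym2.ind with
    | _ a b =>
      have he1 := he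
      rw [SimpleGraph.mem_edgeSet, hadj, adj_iff] at he1
      rcases he1 with h | ⟨r, hrZ, ⟨h1, h2⟩ | ⟨h1, h2⟩⟩
      · refine ⟨Sum.inl ⟨s(a, b), ?_⟩, rfl⟩
        rw [SimpleGraph.mem_edgeSet, hadj]
        exact h
      · refine ⟨Sum.inr ⟨r, hrZ, h1 ▸ a.2, h2 ▸ b.2⟩, ?_⟩
        apply Subtype.ext
        change s(_, _) = s(a, b)
        exact Sym2.eq_iff.2 (Or.inl ⟨Subtype.ext h1.symm, Subtype.ext h2.symm⟩)
      · refine ⟨Sum.inr ⟨r, hrZ, h1 ▸ b.2, h2 ▸ a.2⟩, ?_⟩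
        apply Subtype.ext
        change s(_, _) = s(a, b)
        exact Sym2.eq_iff.2 (Or.inr ⟨Subtype.ext h1.symm, Subtype.ext h2.symm⟩)

end Pool.Agent.HMT.H76
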